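import Pool.Agent.Lib_MP_30cc74_lb.Five
import Pool.Agent.Lib_MP_30cc74_lb.Eight
import Pool.Agent.Lib_MP_30cc74_co.Bounds

/-!
# `NPO(k) ≥ c k ^ (8/3)`

`NPO(k)` is the least `n` such that every graph with at least `n` vertices has an adjacency matrix
with at least `k` nonpositive eigenvalues.  The known lower bound is `NPO(k) > k (k + 1) / 2`.  We
prove `NPO(k) ≥ k ^ (8/3) / 6200` for all `k ≥ 1`.

The graphs have `N ^ 8` vertices and at most `14 N ^ 3 + 3 N ^ 2 + 4 N` nonpositive eigenvalues;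
see `Pool/Agent/Lib_MP_30cc74_lb/Eight.lean`.
-/

set_option autoImplicit false

namespace Pool.Agent.Results.MP_30cc74_co.EightThirds

open Pool.Agent.NPO Pool.Agent.NPOLB

open scoped Classical in
/-- The number of nonpositive eigenvalues, counted with multiplicity, of the adjacency matrix of
`G`: the number of nonpositive roots of its characteristic polynomial. -/
noncomputable def nonposCount {n : ℕ} (G : SimpleGraph (Fin n)) : ℕ :=
  Multiset.card ((G.adjMatrix ℝ).charpoly.roots.filter fun t => t ≤ 0)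

/-- `NPO(k)`: the least `n` such that every graph with at least `n` vertices has at least `k`
nonpositive adjacency eigenvalues. -/
noncomputable def NPO (k : ℕ) : ℕ :=
  sInf {n : ℕ | ∀ m : ℕ, n ≤ m → ∀ G : SimpleGraph (Fin m), k ≤ nonposCount G}

open scoped Classical in
theorem herm {n : ℕ} (G : SimpleGraph (Fin n)) : (G.adjMatrix ℝ).IsHermitian := by
  ext i j
  simp [SimpleGraph.adjMatrix_apply, G.adj_comm]

open scoped Classical in
theorem nonposCount_eq {n : ℕ} (G : SimpleGraph (Fin n)) :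
    nonposCount G = (Finset.univ.filter fun a => (herm G).eigenvalues a ≤ 0).card := by
  unfold nonposCount
  rw [(herm G).roots_charpoly_eq_eigenvalues, Multiset.filter_map, Multiset.card_map]
  rfl

/-- The number of vertices of a graph with fewer than `k` nonpositive eigenvalues is bounded. -/
theorem bounds {n k : ℕ} (hk : 1 ≤ k) (G : SimpleGraph (Fin n)) (hG : nonposCount G < k) :
    (n : ℝ) + 1 ≤ Real.exp (10 * Real.sqrt k) := by
  classical
  rw [nonposCount_eq] at hG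
  have h01 : ∀ i j, G.adjMatrix ℝ i j = 0 ∨ G.adjMatrix ℝ i j = 1 := by
    intro i j
    rw [SimpleGraph.adjMatrix_apply]
    split_ifs
    · exact Or.inr rfl
    · exact Or.inl rfl
  have hdiag : ∀ i, G.adjMatrix ℝ i i = 0 := by
    intro i
    simp
  rcases Nat.lt_or_ge k 2 with h2 | h2
  · have hk1 : k = 1 := by omega
    subst hk1
    have h0 : (Finset.univ.filter fun a => (herm G).eigenvalues a ≤ 0).card = 0 := by omega
    have hn : n = 0 := by
      by_contra hn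
      have := card_indep_le (herm G) {⟨0, by omega⟩} (by
        intro i hi j hj
        rw [Finset.mem_singleton] at hi hj
        rw [hi, hj]
        exact hdiag _)
      rw [h0, Finset.card_singleton] at this
      omega
    subst hn
    simp only [Nat.cast_zero, zero_add]
    exact Real.one_le_exp (by positivity)
  · have hG' : (Finset.univ.filter fun a => (herm G).eigenvalues a ≤ 0).card + 1 ≤ k := hG
    have := final (herm G) h01 hdiag k h2 hG'
    rwa [Fintype.card_fin] at this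

/-- The minimum exists. -/
theorem attained {k : ℕ} (hk : 1 ≤ k) :
    ∀ m : ℕ, NPO k ≤ m → ∀ G : SimpleGraph (Fin m), k ≤ nonposCount G := by
  have hmem : ⌊Real.exp (10 * Real.sqrt k)⌋₊ + 1 ∈ {n : ℕ | ∀ m : ℕ, n ≤ m →
      ∀ G : SimpleGraph (Fin m), k ≤ nonposCount G} := by
    intro m hm G
    by_contra hcon
    push Not at hcon
    have h1 := bounds hk G hcon
    have h2 : Real.exp (10 * Real.sqrt k) < (⌊Real.exp (10 * Real.sqrt k)⌋₊ : ℝ) + 1 :=
      Nat.lt_floor_add_one _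
    have h3 : ((⌊Real.exp (10 * Real.sqrt k)⌋₊ + 1 : ℕ) : ℝ) ≤ m := by exact_mod_cast hm
    push_cast at h3
    linarith
  exact Nat.sInf_mem ⟨_, hmem⟩

/-- A graph with fewer than `k` nonpositive eigenvalues has fewer than `NPO(k)` vertices. -/
theorem lt_NPO {n k : ℕ} (hk : 1 ≤ k) (G : SimpleGraph (Fin n)) (hG : nonposCount G < k) :
    n < NPO k := by
  by_contra hcon
  push Not at hcon
  exact absurd (attained hk n hcon G) (not_le.2 hG)

/-- `16 N ^ 5 < NPO(15 N ^ 2 + 1)` -/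
theorem lt_npo_five {N k : ℕ} (hN : 1 ≤ N) (hk : 15 * N ^ 2 < k) : 16 * N ^ 5 < NPO k := by
  classical
  obtain ⟨Ω, iF, iD, u, hcard, hu⟩ := five_graph N hN
  obtain ⟨G, hG⟩ := exists_graph hcard hu
  refine lt_NPO (by omega) G (lt_of_le_of_lt ?_ hk)
  rw [nonposCount_eq]
  obtain ⟨m, l, s, hm, hl, hd⟩ := hG.dec
  exact card_nonpos_le (herm G) hm hl hd

theorem one_le_NPO {k : ℕ} (hk : 1 ≤ k) : 1 ≤ NPO k := by
  have := lt_NPO hk (⊥ : SimpleGraph (Fin 0)) (by
    rw [nonposCount_eq]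
    refine lt_of_le_of_lt (Finset.card_le_univ _) ?_
    rw [Fintype.card_fin]
    omega)
  omega

/-- `NPO(k) ≥ k ^ (5/2) / 1750` (used below for small `k` only) -/
theorem five_halves (k : ℕ) (hk : 1 ≤ k) : (k : ℝ) ^ (5 / 2 : ℝ) ≤ 1750 * NPO k := by
  -- the integer `N`
  obtain ⟨N, hN1, hN2⟩ : ∃ N : ℕ, (N = 0 ∨ 15 * N ^ 2 < k) ∧ k ≤ 15 * (N + 1) ^ 2 := by
    have hex : ∃ N : ℕ, k ≤ 15 * (N + 1) ^ 2 := ⟨k, by nlinarith⟩
    classical
    refine ⟨Nat.find hex, ?_, Nat.find_spec hex⟩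
    rcases Nat.eq_zero_or_pos (Nat.find hex) with h0 | h0
    · exact Or.inl h0
    · right
      have := Nat.find_min hex (Nat.sub_lt h0 one_pos)
      push Not at this
      have e : Nat.find hex - 1 + 1 = Nat.find hex := by omega
      rwa [e] at this
  have hNPO : 16 * N ^ 5 + 1 ≤ NPO k := by
    rcases Nat.eq_zero_or_pos N with h0 | h0
    · subst h0
      simpa using one_le_NPO hk
    · rcases hN1 with h1 | h1
      · omega
      · exact lt_npo_five h0 h1
  have hNPO' : 16 * (N : ℝ) ^ 5 + 1 ≤ NPO k := by exact_mod_cast hNPO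
  have hk0 : (0 : ℝ) < k := by exact_mod_cast hk
  have hk2 : (k : ℝ) ≤ 15 * ((N : ℝ) + 1) ^ 2 := by exact_mod_cast hN2
  -- `k ^ (5/2)`
  have h1 : (k : ℝ) ^ (5 / 2 : ℝ) = (Real.sqrt k) ^ 5 := by
    rw [Real.sqrt_eq_rpow, ← Real.rpow_natCast, ← Real.rpow_mul hk0.le]
    norm_num
  have h2 : Real.sqrt k ≤ Real.sqrt 15 * ((N : ℝ) + 1) := by
    have h3 : Real.sqrt 15 * ((N : ℝ) + 1) = Real.sqrt (15 * ((N : ℝ) + 1) ^ 2) := by
      rw [Real.sqrt_mul (by norm_num), Real.sqrt_sq (by positivity)]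
    rw [h3]
    exact Real.sqrt_le_sqrt hk2
  have h15 : Real.sqrt 15 ≤ 3.873 := by
    rw [Real.sqrt_le_left (by norm_num)]
    norm_num
  have h3 : (k : ℝ) ^ (5 / 2 : ℝ) ≤ 872 * ((N : ℝ) + 1) ^ 5 := by
    rw [h1]
    calc (Real.sqrt k) ^ 5 ≤ (3.873 * ((N : ℝ) + 1)) ^ 5 := by
          have : Real.sqrt k ≤ 3.873 * ((N : ℝ) + 1) := h2.trans (by gcongr)
          gcongr
      _ = 3.873 ^ 5 * ((N : ℝ) + 1) ^ 5 := by ring
      _ ≤ 872 * ((N : ℝ) + 1) ^ 5 := by
          gcongr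
          norm_num
  -- `872 (N + 1) ^ 5 ≤ 1750 (16 N ^ 5 + 1)`
  have h4 : 872 * ((N : ℝ) + 1) ^ 5 ≤ 1750 * (16 * (N : ℝ) ^ 5 + 1) := by
    rcases Nat.eq_zero_or_pos N with h0 | h0
    · subst h0
      norm_num
    · have h5 : (1 : ℝ) ≤ N := by exact_mod_cast h0
      have h6 : (N : ℝ) + 1 ≤ 2 * N := by linarith
      calc 872 * ((N : ℝ) + 1) ^ 5 ≤ 872 * (2 * (N : ℝ)) ^ 5 := by gcongr
        _ = 27904 * (N : ℝ) ^ 5 := by ring
        _ ≤ 1750 * (16 * (N : ℝ) ^ 5 + 1) := by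
          have : (0 : ℝ) ≤ (N : ℝ) ^ 5 := by positivity
          linarith
  linarith

/-- `N ^ 8 < NPO(k)` if `14 N ^ 3 + 3 N ^ 2 + 4 N < k` -/
theorem lt_npo_eight {N k : ℕ} (hN : 1 ≤ N) (hk : 14 * N ^ 3 + 3 * N ^ 2 + 4 * N < k) :
    N ^ 8 < NPO k := by
  classical
  obtain ⟨Ω, iF, iD, u, hcard, hu⟩ := eight_graph N hN
  obtain ⟨G, hG⟩ := exists_graph hcard hu
  refine lt_NPO (by omega) G (lt_of_le_of_lt ?_ hk)
  rw [nonposCount_eq]
  obtain ⟨m, l, s, hm, hl, hd⟩ := hG.dec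
  exact card_nonpos_le (herm G) hm hl hd

/-- For all `k ≥ 1` every graph with at least `NPO(k)` vertices has at least `k` nonpositive
eigenvalues, and `NPO(k) ≥ k ^ (8/3) / 6200`. -/
theorem result (k : ℕ) (hk : 1 ≤ k) :
    (∀ m : ℕ, NPO k ≤ m → ∀ G : SimpleGraph (Fin m), k ≤ nonposCount G) ∧
      (k : ℝ) ^ (8 / 3 : ℝ) ≤ 6200 * NPO k := by
  refine ⟨attained hk, ?_⟩
  have hk0 : (0 : ℝ) < k := by exact_mod_cast hk
  rcases Nat.lt_or_ge 1845 k with hlarge | hsmall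
  · -- the integer `N`
    obtain ⟨N, hN1, hN2⟩ : ∃ N : ℕ, (N = 0 ∨ 14 * N ^ 3 + 3 * N ^ 2 + 4 * N < k) ∧
        k ≤ 14 * (N + 1) ^ 3 + 3 * (N + 1) ^ 2 + 4 * (N + 1) := by
      have hex : ∃ N : ℕ, k ≤ 14 * (N + 1) ^ 3 + 3 * (N + 1) ^ 2 + 4 * (N + 1) :=
        ⟨k, by nlinarith⟩
      classical
      refine ⟨Nat.find hex, ?_, Nat.find_spec hex⟩
      rcases Nat.eq_zero_or_pos (Nat.find hex) with h0 | h0
      · exact Or.inl h0
      · right
        have := Nat.find_min hex (Nat.sub_lt h0 one_pos)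
        push Not at this
        have e : Nat.find hex - 1 + 1 = Nat.find hex := by omega
        rwa [e] at this
    have hN5 : 5 ≤ N := by
      by_contra hcon
      push Not at hcon
      have : N ≤ 4 := by omega
      interval_cases N <;> omega
    have hNPO : N ^ 8 < NPO k := by
      rcases hN1 with h1 | h1
      · omega
      · exact lt_npo_eight (by omega) h1
    have hNPO' : (N : ℝ) ^ 8 ≤ NPO k := by exact_mod_cast hNPO.le
    have hk2 : (k : ℝ) ≤ 14 * ((N : ℝ) + 1) ^ 3 + 3 * ((N : ℝ) + 1) ^ 2 + 4 * ((N : ℝ) + 1) := by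
      exact_mod_cast hN2
    have hN5' : (5 : ℝ) ≤ N := by exact_mod_cast hN5
    have hk3 : (k : ℝ) ≤ (2.934 * (N : ℝ)) ^ 3 := by
      refine hk2.trans ?_
      have hx : (0 : ℝ) ≤ (N : ℝ) - 5 := by linarith
      obtain ⟨x, hx'⟩ : ∃ x : ℝ, x = (N : ℝ) - 5 := ⟨_, rfl⟩
      have hN' : (N : ℝ) = x + 5 := by linarith
      rw [hN']
      rw [← hx'] at hx
      have h3 : 0 ≤ x ^ 3 := by positivity
      have h2 : 0 ≤ x ^ 2 := by positivity
      nlinarith
    obtain ⟨c, hc⟩ : ∃ c : ℝ, c = (k : ℝ) ^ (1 / 3 : ℝ) := ⟨_, rfl⟩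
    have hc0 : 0 ≤ c := by rw [hc]; positivity
    have hc3 : c ^ 3 = k := by
      rw [hc, ← Real.rpow_natCast, ← Real.rpow_mul hk0.le]
      norm_num
    have hc8 : c ^ 8 = (k : ℝ) ^ (8 / 3 : ℝ) := by
      rw [hc, ← Real.rpow_natCast, ← Real.rpow_mul hk0.le]
      norm_num
    have hc' : c ≤ 2.934 * (N : ℝ) := by
      refine le_of_pow_le_pow_left₀ (n := 3) (by norm_num) (by positivity) ?_
      rw [hc3]
      exact hk3
    rw [← hc8]
    calc c ^ 8 ≤ (2.934 * (N : ℝ)) ^ 8 := by gcongr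
      _ = 2.934 ^ 8 * (N : ℝ) ^ 8 := by ring
      _ ≤ 6200 * (N : ℝ) ^ 8 := by
        gcongr
        norm_num
      _ ≤ 6200 * NPO k := by gcongr
  · have h1 := five_halves k hk
    have h2 : (k : ℝ) ^ (8 / 3 : ℝ) = (k : ℝ) ^ (5 / 2 : ℝ) * (k : ℝ) ^ (1 / 6 : ℝ) := by
      rw [← Real.rpow_add hk0]
      norm_num
    have h3 : (k : ℝ) ^ (1 / 6 : ℝ) ≤ 3.504 := by
      have h4 : (k : ℝ) ≤ (3.504 : ℝ) ^ (6 : ℝ) := by
        have : (k : ℝ) ≤ 1845 := by exact_mod_cast hsmall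
        refine this.trans ?_
        norm_num
      calc (k : ℝ) ^ (1 / 6 : ℝ) ≤ ((3.504 : ℝ) ^ (6 : ℝ)) ^ (1 / 6 : ℝ) := by gcongr
        _ = 3.504 := by
          rw [← Real.rpow_mul (by norm_num)]
          norm_num
    have h5 : (0 : ℝ) ≤ NPO k := by positivity
    rw [h2]
    calc (k : ℝ) ^ (5 / 2 : ℝ) * (k : ℝ) ^ (1 / 6 : ℝ) ≤ (1750 * NPO k) * 3.504 := by
          gcongr
      _ ≤ 6200 * NPO k := by nlinarith

end Pool.Agent.Results.MP_30cc74_co.EightThirds
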