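import Pool.Agent.Lib_MP_30cc74_co.Bounds

/-!
# A subexponential upper bound for `NPO(k)`

`NPO(k)` is the least `n` such that every graph with at least `n` vertices has an adjacency matrix
with at least `k` nonpositive eigenvalues.  The known upper bound is the Ramsey number
`R(k, k+1)`, which grows exponentially in `k`.  We prove `NPO(k) ≤ exp (10 √k)` and
`NPO(k) ≤ 2 k (√3 k)^(√k) + 1` for all `k ≥ 1`.

Idea.  Let `w` be a probability distribution on the vertices, `d` the density of `G` for `w`, and
write `A - d = Y - X` with `X, Y` positive semidefinite (for the weights `w`), where `X` has rank at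
most `k`; then the trace of `X` is at most `√(k d (1 - d))`.  The points `x_i`, `y_i` with Gram
matrices `X`, `Y` satisfy `|x_i - x_j|² = |y_i - y_j|² + 2 A_ij`.  The Gaussian kernels of the two
configurations are completely positive, so the inequality of Motzkin and Straus (every copositive
inequality) can be applied to both of them.  They differ by the factor `e^(σ A_ij)`, hence if
both colour densities of all spread distributions were at least `δ`, then `e^σ` would be at most
`3/δ²`, whereas the total mass of the kernel is at least `exp (-σ √(k d (1 - d)))`.  This is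
iterated with `δ = 2^(-2^j)`.
-/

namespace Pool.Agent.Results.MP_30cc74_co.Subexponential

open Pool.Agent.NPO

open scoped Classical in
/-- The number of nonpositive eigenvalues, counted with multiplicity, of the adjacency matrix of
`G`: the number of nonpositive roots of its characteristic polynomial. -/
noncomputable def nonposCount {n : ℕ} (G : SimpleGraph (Fin n)) : ℕ :=
  Multiset.card ((G.adjMatrix ℝ).charpoly.roots.filter fun t => t ≤ 0)

/-- `NPO(k)`: the least `n` such that every graph with at least `n` vertices has at least `k`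
nonpositive adjacency eigenvalues. -/
noncomputable def NPO (k : ℕ) : ℕ :=
  sInf {n : ℕ | ∀ m : ℕ, n ≤ m → ∀ G : SimpleGraph (Fin m), k ≤ nonposCount G}

open scoped Classical in
theorem herm {n : ℕ} (G : SimpleGraph (Fin n)) : (G.adjMatrix ℝ).IsHermitian := by
  ext i j
  simp [SimpleGraph.adjMatrix_apply, G.adj_comm]

open scoped Classical in
theorem nonposCount_eq {n : ℕ} (G : SimpleGraph (Fin n)) :
    nonposCount G = (Finset.univ.filter fun a => (herm G).eigenvalues a ≤ 0).card := by
  unfold nonposCount
  rw [(herm G).roots_charpoly_eq_eigenvalues, Multiset.filter_map, Multiset.card_map]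
  rfl

/-- The number of vertices of a graph with fewer than `k` nonpositive eigenvalues. -/
theorem bounds {n k : ℕ} (hk : 1 ≤ k) (G : SimpleGraph (Fin n)) (hG : nonposCount G < k) :
    (n : ℝ) + 1 ≤ Real.exp (10 * Real.sqrt k) ∧
      (n : ℝ) ≤ 2 * k * (Real.sqrt 3 * k) ^ (Real.sqrt k) := by
  classical
  rw [nonposCount_eq] at hG
  have h01 : ∀ i j, G.adjMatrix ℝ i j = 0 ∨ G.adjMatrix ℝ i j = 1 := by
    intro i j
    rw [SimpleGraph.adjMatrix_apply]
    split_ifs
    · exact Or.inr rfl
    · exact Or.inl rfl
  have hdiag : ∀ i, G.adjMatrix ℝ i i = 0 := by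
    intro i
    simp
  rcases Nat.lt_or_ge k 2 with h2 | h2
  · have hk1 : k = 1 := by omega
    subst hk1
    have h0 : (Finset.univ.filter fun a => (herm G).eigenvalues a ≤ 0).card = 0 := by omega
    have hn : n = 0 := by
      by_contra hn
      have := card_indep_le (herm G) {⟨0, by omega⟩} (by
        intro i hi j hj
        rw [Finset.mem_singleton] at hi hj
        rw [hi, hj]
        exact hdiag _)
      rw [h0, Finset.card_singleton] at this
      omega
    subst hn
    constructor
    · simp only [Nat.cast_zero, zero_add]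
      exact Real.one_le_exp (by positivity)
    · simp only [Nat.cast_zero]
      positivity
  · have hG' : (Finset.univ.filter fun a => (herm G).eigenvalues a ≤ 0).card + 1 ≤ k := hG
    constructor
    · have := final (herm G) h01 hdiag k h2 hG'
      rwa [Fintype.card_fin] at this
    · have := one_shot (herm G) h01 hdiag k h2 hG'
      rw [Fintype.card_fin] at this
      refine this.trans_eq ?_
      have hk0 : (0 : ℝ) < k := by
        have : 0 < k := by omega
        exact_mod_cast this
      rw [Real.rpow_def_of_pos (by positivity), mul_comm (Real.sqrt k)]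

theorem npo_le {k : ℕ} {B : ℝ} (hB0 : 0 ≤ B)
    (hB : ∀ (n : ℕ) (G : SimpleGraph (Fin n)), nonposCount G < k → (n : ℝ) ≤ B) :
    (∀ m : ℕ, NPO k ≤ m → ∀ G : SimpleGraph (Fin m), k ≤ nonposCount G) ∧
      (NPO k : ℝ) ≤ B + 1 := by
  have hmem : ⌊B⌋₊ + 1 ∈ {n : ℕ | ∀ m : ℕ, n ≤ m → ∀ G : SimpleGraph (Fin m),
      k ≤ nonposCount G} := by
    intro m hm G
    by_contra hcon
    push Not at hcon
    have h1 := hB m G hcon
    have h2 : B < (⌊B⌋₊ : ℝ) + 1 := Nat.lt_floor_add_one B
    have h3 : ((⌊B⌋₊ + 1 : ℕ) : ℝ) ≤ m := by exact_mod_cast hm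
    push_cast at h3
    linarith
  refine ⟨Nat.sInf_mem ⟨_, hmem⟩, ?_⟩
  have h4 : NPO k ≤ ⌊B⌋₊ + 1 := Nat.sInf_le hmem
  have h5 : (NPO k : ℝ) ≤ ((⌊B⌋₊ + 1 : ℕ) : ℝ) := by exact_mod_cast h4
  push_cast at h5
  have h6 : (⌊B⌋₊ : ℝ) ≤ B := Nat.floor_le hB0
  linarith

/-- For every `k ≥ 1`, every graph with at least `NPO(k)` vertices has at least `k` nonpositive
adjacency eigenvalues, and `NPO(k) ≤ exp (10 √k)` and `NPO(k) ≤ 2 k (√3 k)^(√k) + 1`. -/
theorem result (k : ℕ) (hk : 1 ≤ k) :
    (∀ m : ℕ, NPO k ≤ m → ∀ G : SimpleGraph (Fin m), k ≤ nonposCount G) ∧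
      (NPO k : ℝ) ≤ Real.exp (10 * Real.sqrt k) ∧
      (NPO k : ℝ) ≤ 2 * k * (Real.sqrt 3 * k) ^ (Real.sqrt k) + 1 := by
  have h1 := npo_le (k := k) (B := Real.exp (10 * Real.sqrt k) - 1)
    (by have := Real.one_le_exp (show 0 ≤ 10 * Real.sqrt (k : ℝ) by positivity); linarith)
    (fun n G hG => by have := (bounds hk G hG).1; linarith)
  have h2 := npo_le (k := k) (B := 2 * k * (Real.sqrt 3 * k) ^ (Real.sqrt k)) (by positivity)
    (fun n G hG => (bounds hk G hG).2)
  exact ⟨h1.1, by linarith [h1.2], h2.2⟩

end Pool.Agent.Results.MP_30cc74_co.Subexponential
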